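import Pool.Agent.H664.EX.Stm2
import Pool.Agent.H390.FH.Coord

/-! Project EX (helper664), job CROOT, by helper597: coordinates with a zero or irrational root of the
leading form. -/

set_option autoImplicit false

namespace Pool.Agent.H597.EX

open MvPolynomial Pool.Agent.H664.EX Pool.Agent.H664.FH

/-- the bidegree -/
def wt : Fin 3 → ℕ × ℕ := ![(1, 0), (0, 1), (0, 1)]

lemma weight_wt (m : Fin 3 →₀ ℕ) : Finsupp.weight wt m = (m 0, m 1 + m 2) := by
  rw [Finsupp.weight_apply, Finsupp.sum_fintype _ _ (by simp)]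
  refine Prod.ext ?_ ?_ <;> simp [Fin.sum_univ_three, wt]

/-- bidegree part -/
noncomputable abbrev cp (n : ℕ × ℕ) (P : MvPolynomial (Fin 3) ℂ) : MvPolynomial (Fin 3) ℂ :=
  weightedHomogeneousComponent wt n P

lemma cp_ne {n : ℕ × ℕ} {P : MvPolynomial (Fin 3) ℂ} :
    cp n P ≠ 0 ↔ ∃ m ∈ P.support, m 0 = n.1 ∧ m 1 + m 2 = n.2 := by
  classical
  constructor
  · intro h
    obtain ⟨m, hm⟩ := support_nonempty.2 h
    rw [mem_support_iff, coeff_weightedHomogeneousComponent] at hm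
    have h1 : Finsupp.weight wt m = n := by
      by_contra hne
      rw [if_neg hne] at hm
      exact hm rfl
    rw [if_pos h1] at hm
    refine ⟨m, mem_support_iff.2 hm, ?_⟩
    rw [weight_wt] at h1
    rw [← h1]
    exact ⟨rfl, rfl⟩
  · rintro ⟨m, hm, h1, h2⟩ h
    have h3 : coeff m (cp n P) = coeff m P := by
      rw [coeff_weightedHomogeneousComponent, if_pos]
      rw [weight_wt, h1, h2]
    rw [h, coeff_zero] at h3
    exact (mem_support_iff.1 hm) h3.symm

/-- a matrix which respects the bidegree -/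
structure Blk (M : Matrix (Fin 3) (Fin 3) ℤ) : Prop where
  r0 : ∀ j, M 0 j = if j = 0 then 1 else 0
  r1 : M 1 0 = 0
  r2 : M 2 0 = 0

lemma blk_form {M : Matrix (Fin 3) (Fin 3) ℤ} (hM : Blk M) (i : Fin 3) :
    IsWeightedHomogeneous wt (∑ j, C ((M i j : ℤ) : ℂ) * X j : MvPolynomial (Fin 3) ℂ) (wt i) := by
  have hX : ∀ (c : ℂ) (j : Fin 3), IsWeightedHomogeneous wt (C c * X j : MvPolynomial (Fin 3) ℂ)
      (wt j) := fun c j => (isWeightedHomogeneous_X ℂ wt j).C_mul c
  have h0 : ∀ n, IsWeightedHomogeneous wt (0 : MvPolynomial (Fin 3) ℂ) n :=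
    fun n => isWeightedHomogeneous_zero ℂ wt n
  refine IsWeightedHomogeneous.sum _ _ _ fun j _ => ?_
  fin_cases i
  · fin_cases j
    · exact hX _ 0
    · simpa [hM.r0] using h0 _
    · simpa [hM.r0] using h0 _
  · fin_cases j
    · simpa [hM.r1] using h0 _
    · exact hX _ 1
    · exact hX _ 2
  · fin_cases j
    · simpa [hM.r2] using h0 _
    · exact hX _ 1
    · exact hX _ 2

lemma subM_add (M : Matrix (Fin 3) (Fin 3) ℤ) (P Q : MvPolynomial (Fin 3) ℂ) :
    subM M (P + Q) = subM M P + subM M Q := by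
  unfold subM
  rw [map_add]

lemma subM_mono_hom {M : Matrix (Fin 3) (Fin 3) ℤ} (hM : Blk M) (m : Fin 3 →₀ ℕ) (c : ℂ) :
    IsWeightedHomogeneous wt (subM M (monomial m c)) (Finsupp.weight wt m) := by
  unfold subM
  rw [bind₁_monomial]
  refine IsWeightedHomogeneous.C_mul ?_ c
  rw [Finsupp.weight_apply, Finsupp.sum]
  exact IsWeightedHomogeneous.prod _ _ _ fun i _ => (blk_form hM i).pow (m i)

lemma cp_subM {M : Matrix (Fin 3) (Fin 3) ℤ} (hM : Blk M) (n : ℕ × ℕ)
    (P : MvPolynomial (Fin 3) ℂ) : cp n (subM M P) = subM M (cp n P) := by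
  induction P using MvPolynomial.induction_on' with
  | monomial m c =>
    have h1 := subM_mono_hom hM m c
    have h2 : IsWeightedHomogeneous wt (monomial m c : MvPolynomial (Fin 3) ℂ)
        (Finsupp.weight wt m) := isWeightedHomogeneous_monomial wt m c rfl
    by_cases h : Finsupp.weight wt m = n
    · rw [← h, cp, h1.weightedHomogeneousComponent_same, cp, h2.weightedHomogeneousComponent_same]
    · rw [cp, h1.weightedHomogeneousComponent_ne n (fun h' => h h'.symm), cp,
        h2.weightedHomogeneousComponent_ne n (fun h' => h h'.symm)]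
      simp [subM]
  | add p q hp hq =>
    have e1 : cp n (subM M p + subM M q) = cp n (subM M p) + cp n (subM M q) := map_add _ _ _
    have e2 : cp n (p + q) = cp n p + cp n q := map_add _ _ _
    rw [subM_add, e1, e2, subM_add, hp, hq]

lemma cp_subM_ne {M M' : Matrix (Fin 3) (Fin 3) ℤ} (hM' : Blk M') (h : M' * M = 1)
    (n : ℕ × ℕ) (P : MvPolynomial (Fin 3) ℂ) : cp n (subM M' P) ≠ 0 ↔ cp n P ≠ 0 := by
  rw [cp_subM hM']
  constructor
  · intro h1 h2
    apply h1
    rw [h2]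
    simp [subM]
  · intro h1 h2
    apply h1
    have h3 := Pool.Agent.H390.FH.subM_subM M' M h (cp n P)
    rw [h2] at h3
    rw [← h3]
    simp [subM]

lemma leadAt_eq (P : MvPolynomial (Fin 3) ℂ) (d J : ℕ) (w : ℂ) :
    leadAt P d J w = eval ![1, 1, w] (cp (J, d) P) := by
  classical
  unfold leadAt
  rw [cp, weightedHomogeneousComponent_apply, map_sum]
  refine Finset.sum_congr ?_ fun m _ => ?_
  · ext m
    rw [Finset.mem_filter, Finset.mem_filter, weight_wt, Prod.mk.injEq]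
    constructor
    · rintro ⟨a, b, c⟩
      exact ⟨a, c, b⟩
    · rintro ⟨a, b, c⟩
      exact ⟨a, c, b⟩
  · rw [eval_monomial, Finsupp.prod_fintype _ _ (by simp)]
    simp [Fin.prod_univ_three]

/-- the leading data are invariant -/
lemma root_sub {P : MvPolynomial (Fin 3) ℂ} {d J : ℕ} (hle : ∀ m ∈ P.support, m 1 + m 2 ≤ d)
    (hleJ : ∀ m ∈ P.support, m 1 + m 2 = d → m 0 ≤ J)
    (hex : ∃ m ∈ P.support, m 1 + m 2 = d ∧ m 0 = J) (hd : 1 ≤ d)
    {M M' : Matrix (Fin 3) (Fin 3) ℤ} (hM' : Blk M') (h : M' * M = 1) {γ : ℂ}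
    (hγ : eval (fun i => ∑ j, ((M' i j : ℤ) : ℂ) * (![1, 1, γ] : Fin 3 → ℂ) j) (cp (J, d) P) = 0) :
    Root (subM M' P) d J γ := by
  have key : ∀ m ∈ (subM M' P).support, ∃ m' ∈ P.support, m' 0 = m 0 ∧ m' 1 + m' 2 = m 1 + m 2 := by
    intro m hm
    have h1 : cp (m 0, m 1 + m 2) (subM M' P) ≠ 0 := cp_ne.2 ⟨m, hm, rfl, rfl⟩
    rw [cp_subM_ne hM' h] at h1
    exact cp_ne.1 h1
  refine ⟨fun m hm => ?_, fun m hm hmd => ?_, ?_, hd, ?_⟩
  · obtain ⟨m', hm', -, e⟩ := key m hm
    rw [← e]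
    exact hle m' hm'
  · obtain ⟨m', hm', e0, e⟩ := key m hm
    rw [← e0]
    exact hleJ m' hm' (by rw [e, hmd])
  · obtain ⟨m, hm, h1, h2⟩ := hex
    have h3 : cp (J, d) P ≠ 0 := cp_ne.2 ⟨m, hm, h2, h1⟩
    rw [← cp_subM_ne hM' h] at h3
    obtain ⟨m', hm', e1, e2⟩ := cp_ne.1 h3
    exact ⟨m', hm', e2, e1⟩
  · rw [leadAt_eq, cp_subM hM', Pool.Agent.H390.FH.eval_subM]
    exact hγ

lemma eval_cp (P : MvPolynomial (Fin 3) ℂ) (d J : ℕ) (t v : ℂ) :
    eval ![1, t, v] (cp (J, d) P) =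
      ∑ m ∈ P.support with m 1 + m 2 = d ∧ m 0 = J, coeff m P * (t ^ (m 1) * v ^ (m 2)) := by
  classical
  rw [cp, weightedHomogeneousComponent_apply, map_sum]
  refine Finset.sum_congr ?_ fun m _ => ?_
  · ext m
    rw [Finset.mem_filter, Finset.mem_filter, weight_wt, Prod.mk.injEq]
    constructor
    · rintro ⟨a, b, c⟩
      exact ⟨a, c, b⟩
    · rintro ⟨a, b, c⟩
      exact ⟨a, c, b⟩
  · rw [eval_monomial, Finsupp.prod_fintype _ _ (by simp)]
    simp [Fin.prod_univ_three]

/-- coprime integers with `L(q, p) = 0` are enough -/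
lemma of_coprime {P : MvPolynomial (Fin 3) ℂ} {d J : ℕ} (hle : ∀ m ∈ P.support, m 1 + m 2 ≤ d)
    (hleJ : ∀ m ∈ P.support, m 1 + m 2 = d → m 0 ≤ J)
    (hex : ∃ m ∈ P.support, m 1 + m 2 = d ∧ m 0 = J) (hd : 1 ≤ d) {q p : ℤ}
    (hqp : IsCoprime q p) (h0 : eval ![1, (q : ℂ), (p : ℂ)] (cp (J, d) P) = 0) :
    ∃ (M M' : Matrix (Fin 3) (Fin 3) ℤ) (d J : ℕ) (γ : ℂ), M * M' = 1 ∧ M' * M = 1 ∧
    (∀ j, M 0 j = if j = 0 then 1 else 0) ∧ M 2 0 = 0 ∧ Root (subM M' P) d J γ ∧
    (γ = 0 ∨ ∀ a b : ℤ, (a : ℂ) + b * γ = 0 → a = 0 ∧ b = 0) := by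
  obtain ⟨u, v, huv⟩ := hqp
  have hM'M : (!![1, 0, 0; 0, q, -v; 0, p, u] : Matrix (Fin 3) (Fin 3) ℤ) *
      !![1, 0, 0; 0, u, v; 0, -p, q] = 1 := by
    ext i j
    fin_cases i <;> fin_cases j <;> simp [Matrix.mul_apply, Fin.sum_univ_three] <;> linarith
  have hMM' : (!![1, 0, 0; 0, u, v; 0, -p, q] : Matrix (Fin 3) (Fin 3) ℤ) *
      !![1, 0, 0; 0, q, -v; 0, p, u] = 1 := by
    ext i j
    fin_cases i <;> fin_cases j <;> simp [Matrix.mul_apply, Fin.sum_univ_three] <;> linarith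
  have hB : Blk !![1, 0, 0; 0, q, -v; 0, p, u] := by
    refine ⟨fun j => ?_, rfl, rfl⟩
    fin_cases j <;> rfl
  refine ⟨!![1, 0, 0; 0, u, v; 0, -p, q], !![1, 0, 0; 0, q, -v; 0, p, u], d, J, 0, hMM', hM'M,
    fun j => ?_, rfl, root_sub hle hleJ hex hd hB hM'M ?_, Or.inl rfl⟩
  · fin_cases j <;> rfl
  · have e : (fun i => ∑ j, ((((!![1, 0, 0; 0, q, -v; 0, p, u] : Matrix (Fin 3) (Fin 3) ℤ) i j
        : ℤ)) : ℂ) * (![1, 1, 0] : Fin 3 → ℂ) j) = ![1, (q : ℂ), (p : ℂ)] := by
      funext i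
      fin_cases i <;> simp [Fin.sum_univ_three]
    rw [e]
    exact h0

theorem croot : S_croot := by
  classical
  intro P hP
  -- the maximal degree
  obtain ⟨m0, hm0, hm01⟩ := hP
  obtain ⟨m1, hm1, hmax⟩ := Finset.exists_max_image P.support (fun m => m 1 + m 2) ⟨m0, hm0⟩
  set d := m1 1 + m1 2 with hd
  have hd1 : 1 ≤ d := hm01.trans (hmax m0 hm0)
  obtain ⟨m2, hm2, hmax2⟩ := Finset.exists_max_image
    (P.support.filter fun m => m 1 + m 2 = d) (fun m => m 0)
    ⟨m1, Finset.mem_filter.2 ⟨hm1, rfl⟩⟩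
  rw [Finset.mem_filter] at hm2
  set J := m2 0 with hJ
  have hle : ∀ m ∈ P.support, m 1 + m 2 ≤ d := hmax
  have hleJ : ∀ m ∈ P.support, m 1 + m 2 = d → m 0 ≤ J := fun m hm h =>
    hmax2 m (Finset.mem_filter.2 ⟨hm, h⟩)
  have hex : ∃ m ∈ P.support, m 1 + m 2 = d ∧ m 0 = J := ⟨m2, hm2.1, hm2.2, rfl⟩
  by_cases hA : ∃ γ : ℂ, leadAt P d J γ = 0 ∧
      (γ = 0 ∨ ∀ a b : ℤ, (a : ℂ) + b * γ = 0 → a = 0 ∧ b = 0)
  · obtain ⟨γ, h1, h2⟩ := hA
    have hB : Blk 1 := by
      refine ⟨fun j => ?_, rfl, rfl⟩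
      fin_cases j <;> rfl
    refine ⟨1, 1, d, J, γ, one_mul _, one_mul _, fun j => ?_, rfl,
      root_sub hle hleJ hex hd1 hB (one_mul _) ?_, h2⟩
    · fin_cases j <;> rfl
    · have e : (fun i => ∑ j, ((((1 : Matrix (Fin 3) (Fin 3) ℤ) i j : ℤ)) : ℂ) *
          (![1, 1, γ] : Fin 3 → ℂ) j) = ![1, 1, γ] := by
        funext i
        simp [Matrix.one_apply]
      rw [e, ← leadAt_eq]
      exact h1
  · push Not at hA
    set S := P.support.filter fun m => m 1 + m 2 = d ∧ m 0 = J with hS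
    by_cases hm : ∃ m ∈ S, m 2 ≠ 0
    · -- a root
      obtain ⟨m, hmS, hm⟩ := hm
      set f : Polynomial ℂ := ∑ m ∈ S, Polynomial.monomial (m 2) (coeff m P) with hf
      have hcoeff : f.coeff (m 2) = coeff m P := by
        rw [hf, Polynomial.finsetSum_coeff, Finset.sum_eq_single m]
        · rw [Polynomial.coeff_monomial, if_pos rfl]
        · intro m' hm' hne
          rw [Polynomial.coeff_monomial, if_neg]
          intro h
          apply hne
          rw [hS, Finset.mem_filter] at hm' hmS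
          ext i
          fin_cases i
          · exact hm'.2.2.trans hmS.2.2.symm
          · have := hm'.2.1.trans hmS.2.1.symm
            simp only [Fin.mk_one, Fin.isValue]
            omega
          · exact h
        · intro h
          exact absurd hmS h
      have hne : f.coeff (m 2) ≠ 0 := by
        rw [hcoeff]
        exact mem_support_iff.1 (Finset.mem_filter.1 hmS).1
      have hdeg : 0 < f.degree := by
        have h1 := Polynomial.le_degree_of_ne_zero hne
        refine lt_of_lt_of_le ?_ h1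
        exact_mod_cast Nat.pos_of_ne_zero hm
      obtain ⟨γ, hγ⟩ := Complex.exists_root hdeg
      have hroot : leadAt P d J γ = 0 := by
        have h2 : Polynomial.eval γ f = 0 := hγ
        rw [hf, Polynomial.eval_finsetSum] at h2
        unfold leadAt
        rw [← h2]
        refine Finset.sum_congr rfl fun m _ => ?_
        rw [Polynomial.eval_monomial]
      obtain ⟨hγ0, a, b, hab, hne2⟩ := hA γ hroot
      have hb : b ≠ 0 := by
        intro hb
        rw [hb] at hab
        simp only [Int.cast_zero, zero_mul, add_zero, Int.cast_eq_zero] at hab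
        exact hne2 hab hb
      have hbc : (b : ℂ) ≠ 0 := by exact_mod_cast hb
      -- coprime representatives
      set g : ℤ := (Int.gcd a b : ℤ) with hg
      have hg0 : g ≠ 0 := by
        rw [hg]
        have : Int.gcd a b ≠ 0 := fun h => hb (Int.gcd_eq_zero_iff.1 h).2
        exact_mod_cast this
      obtain ⟨a', ha'⟩ : g ∣ a := Int.gcd_dvd_left ..
      obtain ⟨b', hb'⟩ : g ∣ b := Int.gcd_dvd_right ..
      have hcop : IsCoprime b' (-a') := by
        have h3 : IsCoprime a' b' := by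
          rw [Int.isCoprime_iff_gcd_eq_one]
          have h4 : Int.gcd a b = g.natAbs * Int.gcd a' b' := by
            conv_lhs => rw [ha', hb']
            rw [Int.gcd_mul_left]
          have h5 : g.natAbs = Int.gcd a b := by rw [hg, Int.natAbs_natCast]
          rw [h5] at h4
          have h6 : 0 < Int.gcd a b := Nat.pos_of_ne_zero fun h => hb (Int.gcd_eq_zero_iff.1 h).2
          nlinarith
        exact h3.symm.neg_right
      have hgc : (g : ℂ) ≠ 0 := by exact_mod_cast hg0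
      have hb'c : (b' : ℂ) ≠ 0 := by
        intro h
        apply hbc
        rw [hb']
        push_cast
        rw [h, mul_zero]
      have hγe : ((-a' : ℤ) : ℂ) = b' * γ := by
        have h7 : (g : ℂ) * (a' + b' * γ) = 0 := by
          rw [← hab]
          conv_rhs => rw [ha', hb']
          push_cast
          ring
        have h8 := (mul_eq_zero.1 h7).resolve_left hgc
        push_cast
        linear_combination -h8
      refine of_coprime hle hleJ hex hd1 hcop ?_
      rw [eval_cp, hγe]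
      have h9 : ∀ m ∈ P.support.filter fun m => m 1 + m 2 = d ∧ m 0 = J,
          coeff m P * ((b' : ℂ) ^ (m 1) * ((b' : ℂ) * γ) ^ (m 2)) =
            (b' : ℂ) ^ d * (coeff m P * γ ^ (m 2)) := by
        intro m hm
        rw [Finset.mem_filter] at hm
        rw [← hm.2.1, mul_pow, pow_add]
        ring
      rw [Finset.sum_congr rfl h9, ← Finset.mul_sum]
      unfold leadAt at hroot
      rw [hroot, mul_zero]
    · push Not at hm
      refine of_coprime hle hleJ hex hd1 (q := 0) (p := 1) isCoprime_one_right ?_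
      rw [eval_cp]
      refine Finset.sum_eq_zero fun m hmS => ?_
      have h1 := hm m hmS
      rw [Finset.mem_filter] at hmS
      have h2 : m 1 ≠ 0 := by
        have := hmS.2.1
        omega
      rw [Int.cast_zero, zero_pow h2, zero_mul, mul_zero]

end Pool.Agent.H597.EX
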